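import Mathlib
import Pool.Agent.U289.KT.Shifts

/-!
# Free positions: all vectors of shifts with entries in a large set of positions

Let `q ≥ 1`, let `r` be prime to `q`, and let `h_j(a)` be an infinite array of integers, with the columns
`j = 0, 1, …` and the positions `a = 0, 1, …`, such that every value is taken in finitely many columns at most at
a given position, and such that the columns are admissible: for every finite set `R` of positions and
every prime `p ≤ |R|` not dividing `q` the `h_j(a)`, `a ∈ R`, miss a residue class modulo `p` for all large `j`.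
Let `W_0, W_1, …` be any finite nonempty sets of positions, and `ε > 0`. Then there are a set `S` of positions which
contains at least the proportion `5/18 - ε` of infinitely many `W_t`, and columns `J_0 < J_1 < …`, such that for all
`k` and `m`, for all `i_1 < ⋯ < i_k` with `k, m ≤ i_1` and for EVERY choice of positions `s_1, …, s_k ≤ m` in
`S` the vector of shifts `v = (h_{J_{i_1}}(s_1), …, h_{J_{i_k}}(s_k))` satisfies the prime `k`-tuples conjecture in
the following strong form. For every length `l` there are `C` and arbitrarily large `N`, the same for all these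
vectors `v` and all sets `J` of indices, with: for some `1 ≤ d ≤ (log N) ^ C` there are at least `N / (log N) ^ C`
integers `n ≤ N` such that for each of the `l` numbers `m' = n, n + d, …, n + (l - 1) d` exactly those of the
numbers `q (m' + v_t) + r` with `t ∈ J` are prime. (With `J` the set of all indices: all are prime infinitely often.)

The point is that `S` does not depend on `k`. Examples (`q = 1`): let `V = {v_0, v_1, …}` be any infinite set of
integers which misses a class modulo every prime and `X` ANY infinite set of integers, `h_j(a) = x_j + v_a` with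
different `x_j ∈ X`. Then `V` has a subset `V'` of relative upper density at least `5/18 - ε` such that all the
vectors `(x_{i_1} + s_1, …, x_{i_k} + s_k)`, `s_t ∈ V'`, `x_{i_1}, x_{i_2}, …` from one infinite subset of `X`,
are good (`i_1` large in terms of `k` and the `s_t`). With four positions, `h_j = (x_j, x_j + 2, x_j + 6, x_j + 8)`
(repeated periodically), one gets `a ∈ {0, 2, 6}` and `d ∈ {2, 4, 6, 8}` such that for all `k ≤ i_1 < ⋯ < i_k` ALL
the `2 ^ k` vertices of the cubes `(x_{i_1} + a, …, x_{i_k} + a) + {0, d} ^ k` are good vectors of shifts.

The theorem on free rows of the starting files (`MP_6a20cc_nt.InfiniteArrays`, from a measure on classes) has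
`n / 400` of `n` rows, and so says nothing for fewer than 401 rows; it gives infinite choices at once, but not
infinitely many rows, the other patterns, the progressions, the common scales and the numbers `N / (log N) ^ C`.

Proof. Fix an ultrafilter on the columns. A set of positions is called free, if for every word in its elements the
iterated limit along the ultrafilter of the statement that the entries in these positions, in successive columns,
have all patterns, is true. The coloured Maynard-Tao theorem with the constant `18/5`, all patterns and narrow
progressions (`Pool.Agent.Y827.HN.patR`, starting files) applied to many blocks of groups of entries, and a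
pigeonhole argument, show that for every weight on finitely many positions some free set has at least `5/18` of the
weight. By Pták's lemma on convex means (`Pool.Agent.Helper639.Tk.ptak`, starting files) there are an infinite set of
windows and, for every finite part of it, a free set which is large in these windows. Limits of free sets are free.
-/

set_option autoImplicit false

namespace Pool.Agent.Results.MP_8923e7_nt.FreePositions

open Filter Finset

open Classical in
/-- the number of the integers `1 ≤ n ≤ N` such that for each `m = n, n + d, …, n + (l - 1) d` exactly those of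
the numbers `q (m + v t) + r` with `t ∈ J` are prime -/
noncomputable def starts (q : ℕ) (r : ℤ) {k : ℕ} (v : Fin k → ℤ) (J : Finset (Fin k)) (l d N : ℕ) : ℕ :=
  ((Icc 1 N).filter (fun n : ℕ => ∀ i < l, ∀ t : Fin k,
    ((q : ℤ) * (((n + i * d : ℕ) : ℤ) + v t) + r).toNat.Prime ↔ t ∈ J)).card

/-- for every length there are arbitrarily large common scales `N` at which all patterns of primes occur for
all vectors in `𝓥`, along narrow progressions -/
def AllGood (q : ℕ) (r : ℤ) {k : ℕ} (𝓥 : Set (Fin k → ℤ)) : Prop :=
  ∀ l : ℕ, ∃ C : ℕ, ∃ᶠ N : ℕ in atTop, ∀ v ∈ 𝓥, ∀ J : Finset (Fin k),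
    ∃ d : ℕ, 1 ≤ d ∧ (d : ℝ) ≤ (Real.log N) ^ C ∧
      (N : ℝ) / (Real.log N) ^ C ≤ (starts q r v J l d N : ℝ)

/-- **Free positions.** -/
theorem result (q : ℕ) (r : ℤ) (hq : 1 ≤ q) (hqr : IsCoprime r (q : ℤ))
    (h : ℕ → ℕ → ℤ) (hinj : ∀ j a a', ∀ᶠ j' in atTop, h j' a' ≠ h j a)
    (hadm : ∀ (R : Finset ℕ) (p : ℕ), p.Prime → p ≤ R.card → ¬ p ∣ q →
      ∀ᶠ j in atTop, ∃ c : ℤ, ∀ a ∈ R, ¬ (p : ℤ) ∣ h j a - c)
    (W : ℕ → Finset ℕ) (hW : ∀ t, (W t).Nonempty) (ε : ℝ) (hε : 0 < ε) :
    ∃ (S : Set ℕ) (J : ℕ → ℕ),
      (∃ᶠ t in atTop, (5 / 18 - ε) * ((W t).card : ℝ) ≤ (((W t : Set ℕ) ∩ S).ncard : ℝ)) ∧ StrictMono J ∧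
      ∀ (k m : ℕ) (i : Fin k → ℕ), StrictMono i → (∀ t, k ≤ i t ∧ m ≤ i t) →
        AllGood q r {v : Fin k → ℤ |
          ∃ s : Fin k → ℕ, (∀ t, s t ∈ S ∧ s t ≤ m) ∧ ∀ t, v t = h (J (i t)) (s t)} :=
  Pool.Agent.U289.KT.mainS q r hq hqr h hinj hadm W hW ε hε

end Pool.Agent.Results.MP_8923e7_nt.FreePositions
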