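import Pool.Agent.U136.NWS.Assemble
import Pool.Agent.U136.NWS.PR

/-!
# The sharp limit of the Maynard-Tao method for all nonnegative weights

The method of Goldston-Pintz-Yildirim, Maynard and Tao finds primes in `n + h`, `h ∈ H`, `#H = k`, by a nonnegative weight
`w(n)` of level `Q = x^θ`, i.e. a combination of functions with periods `d ≤ Q`, for which the expected number of primes,
`∑_{n ~ x} w(n) #{h : n + h prime} / ∑_{n ~ x} w(n)`, can be computed (`θ < 1/2` by the theorem of Bombieri and Vinogradov,
`θ < 1` by the conjecture of Elliott and Halberstam).  With squares `w = (∑ λ)^2` of divisor sums of several variables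
Maynard and Tao get the expected number `(θ/2) log k - O(log log k)`, so that `k = exp((2/θ + o(1)) m)` integers `n + h`
suffice for `m + 1` primes.  Can one do better with other weights, not squares, not of Selberg's or Maynard's shape?

We prove that one cannot: for EVERY nonnegative weight of level `Q` and EVERY set `H` of `k` integers in `[0, Q^B]` the
expected number of the `n + h` without prime factors `p ≤ Q` is at most `(e^(-γ)/2 + ε) log k + C(ε)`, and the expected number
of primes is at most `((1/2 + ε) log k + C(ε)) log Q / log x`, i.e. `(θ/2 + εθ) log k + C(ε) θ` if `Q = x^θ`.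

Proof.  The places are the primes `p = Q^u`, `m/n < u ≤ 1`, and `f(γ)`, `γ` the list of the sites `h` with `p ∣ n + h` for each
place `p`, is the mean of `w` over the `n` with this list: a nonnegative function of level `1` on a product space.  The primes
are divided into windows, in which `log p` changes by the factor `ρ`, and the windows into cells.  For every site `h` let
`K_z` be the kernel which resamples the places of a window, as long as the site has not been hit in an earlier window, with a
probability `θ_l(X)` depending on the set `X` of the cells hit after resampling, which is a Laurent polynomial in `z` with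
nonnegative values for `|z| = 1`, vanishing at `z = e^(-t)`.  Applied to `f` for all sites it gives a polynomial in `z` (times
`z^(-n)`), it is the identity at `z = e^(-t)`, and on the circle its adjoint maps an explicit density `φ_z` to `1`.  The
inequality of Jensen at `e^(-t)`, with the weights `f(γ)`, bounds the mean of `∑_h LB(T_h)` with respect to `f`, where `LB(T)`
is the mean of `log φ_z` over the circle (harmonic measure at `e^(-t)`), `T` the set of places where the site is hit.  The
coefficients of `θ_l` are chosen such that this mean is, up to terms of second order, `v_l t B_l (1[no hit] ∏ (1 - p_c)^(-1) - 1)`;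
the second order term is `1/2 ∑_A ∏_{c ∈ A} p_c/(1 - p_c) / |A|`, and this sum is `(e^(-γ) log ρ + O(1)) / J` by a Tauberian
computation with the exponential integral.  So `B_{l+1} = B_l - (e^(-γ)/2) (log ρ / J) B_l^2` telescopes, which gives the
constant `e^(-γ)/2`.

The plan and the statements of the pieces are of helper422 (folders N422/NW, N422/NWS of the library); proofs: GEN, the model
theorem PSs, the passage to weights and primes FIN1, FIN2, PR (helper136), MPOL (helper221), ABS (helper597), MULTI (helper623),
HITS (helper506), TRIG (helper540), CUBE (helper394), WIN (helper808), SEQ (helper913), MOM (helper796), SITE (helper692),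
EVAL (helper123), MER2 (helper23).
-/

set_option autoImplicit false

open Finset Filter Topology

namespace Pool.Agent.Results.MP_8923e7_nt.LimitOfMaynardTao

/-- the weight `w(n) = ∑_{d ≤ Q} c_d(n mod d)`, an arbitrary real weight of level `Q` -/
noncomputable def weight (Q : ℕ) (c : ℕ → ℕ → ℝ) (n : ℕ) : ℝ := ∑ d ∈ Icc 1 Q, c d (n % d)

/-- the mean value of `F` over the period `Q!` of the weights of level `Q` -/
noncomputable def mean (Q : ℕ) (F : ℕ → ℝ) : ℝ := (∑ n ∈ range Q.factorial, F n) / (Q.factorial : ℝ)

/-- the number of `h ∈ H` for which `n + h` is prime -/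
def primes (H : Finset ℕ) (n : ℕ) : ℕ := (H.filter (fun h => (n + h).Prime)).card

/-- For every `ε > 0` there is `C ≥ 0` such that for all `k ≥ 1` and `B` there is `Q₀` such that for all `Q ≥ Q₀`, all sets
`H` of `k` integers in `[0, Q^B]` and all weights `w ≥ 0` of level `Q`:
`(log X / X) ∑_{n < X} w(n) #{h ∈ H : n + h prime}` has a limit `P` for `X → ∞`, and `P` is at most
`((1/2 + ε) log k + C) log Q` times the mean of `w`. -/
theorem result (ε : ℝ) (hε : 0 < ε) : ∃ C : ℝ, 0 ≤ C ∧ ∀ k : ℕ, 1 ≤ k → ∀ B : ℝ, ∃ Q₀ : ℕ, ∀ Q : ℕ, Q₀ ≤ Q →
    ∀ H : Finset ℕ, H.card = k → (∀ h ∈ H, (h : ℝ) ≤ (Q : ℝ) ^ B) →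
    ∀ c : ℕ → ℕ → ℝ, (∀ n, 0 ≤ weight Q c n) →
      ∃ P : ℝ, Tendsto (fun X : ℕ => Real.log X / X * ∑ n ∈ range X, weight Q c n * (primes H n : ℝ)) atTop (𝓝 P) ∧
        P ≤ ((1 / 2 + ε) * Real.log k + C) * Real.log Q * mean Q (weight Q c) := by
  obtain ⟨C, hC, h⟩ := Pool.Agent.U136.NWS.fin_primes Pool.Agent.U136.NWS.fin1 Pool.Agent.N422.NW.t_VQ ε hε
  refine ⟨C, hC, fun k hk B => ?_⟩
  obtain ⟨Q₀, hQ₀⟩ := h k hk B
  refine ⟨Q₀, fun Q hQ H hH hHB c hc => ⟨_, Pool.Agent.U136.NWS.t_PR Q H c, (hQ₀ Q hQ H hH hHB c hc).2⟩⟩

end Pool.Agent.Results.MP_8923e7_nt.LimitOfMaynardTao
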