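import Mathlib
import Pool.Agent.U288.SP.Fin

/-!
# The prime tuples conjecture for a positive proportion of the vectors of shifts made of shifted primes

Fix `k` and attach to every pair `0 ≤ i < j ≤ k` a number `s i j ∈ {0, 1, -1}`; the pairs with `s i j ≠ 0` are the
edges of a graph on `{0, ..., k}`, and `e` is their number. Consider the vectors of shifts
`0 = h 0 < h 1 < ... < h k ≤ X` for which `h j - h i + s i j` is a PRIME for every edge `i < j`. There are at most
`C X ^ k / (log X) ^ e` of them. The theorem: for all large `X`, at least `c X ^ k / (log X) ^ e` of them, `c > 0`,
so a positive proportion, satisfy the prime tuples conjecture: the numbers `N, N + h 1, ..., N + h k` are all prime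
for many `N`, also in every prescribed residue class `N ≡ r (mod q)` prime to `q` (`c` depends on `k` and `q` only).

Special cases.
* Star (edges `0 < j`, all `s 0 j = 1`): for a positive proportion of ALL `k`-element sets of primes
  `p_1 < ... < p_k ≤ X` the numbers `N, N + p_1 - 1, ..., N + p_k - 1` are all prime for infinitely many `N`; with
  `s 0 j = -1` the same for `N, N + p_1 + 1, ..., N + p_k + 1`. For `k = 1`: a positive proportion of the shifted
  primes `p - 1`, and of the `p + 1`, are differences of infinitely many pairs of primes.
* Path (edges `i < i + 1`): prime patterns all of whose successive distances are shifted primes.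
* Complete graph: all the distances are shifted primes.
* No edges: a positive proportion of all vectors (known, Maynard).
The known results (in the literature and in the starting files) give proportions of all the vectors in a box, or of
the `(k + 1)`-tuples of elements of a set; the vectors considered here are a set of density zero, and they do not
contain the differences of the tuples of any one large set.

Proof. By the coloured Maynard-Tao theorem (starting files: `Pool.Agent.H732R3.BigQ.quarterB`), whenever the points
of an admissible set are put into `T` classes of `K = K(T)` elements, there are primes in a quarter of the classes at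
once. Take for the classes the `T = (k + 1) ^ n` words of length `n` over `{0, ..., k}`, and impose on a pair of
points in the classes `w`, `w'` the condition `s i j` if `w` and `w'` differ only in places where `w` has the letter
`i` and `w'` has the letter `j`. By the density Hales-Jewett theorem (starting files) a quarter of the words contains
a combinatorial line, and this gives `k + 1` points `z 0 < ... < z k` whose differences satisfy exactly the
conditions `s` and which are simultaneously prime after many translations (`MT.lean`). There are at least
`c X ^ D / (log X) ^ E` such configurations of `D = T K` points with `E` conditions, by adding one point after the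
other and the asymptotic formula for almost all systems of linear forms (starting files, `LB1.lean`, `LB2.lean`); and
by the Selberg sieve for systems of linear forms (starting files), averaged over lines (`UB1.lean` - `UB3.lean`),
there are at most `C X ^ (2 D - k - 1) / (log X) ^ (2 E - e)` pairs of configurations which have the points `z` in
common (`Asm1.lean`). The inequality of Cauchy and Schwarz gives the theorem (`Asm2.lean`, `Asm3.lean`).
-/

set_option autoImplicit false

namespace Pool.Agent.Results.MP_8923e7_nt.ShiftedPrimeDifferences

open Filter Finset

/-- the number `e` of the edges `i < j`, `s i j ≠ 0` -/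
def edges {k : ℕ} (s : Fin (k + 1) → Fin (k + 1) → ℤ) : ℕ :=
  ((univ : Finset (Fin (k + 1) × Fin (k + 1))).filter (fun e => e.1 < e.2 ∧ s e.1 e.2 ≠ 0)).card

open Classical in
/-- the vectors `0 = h 0 < h 1 < ... < h k ≤ X` such that `h j - h i + s i j` is a prime for every edge `i < j` -/
noncomputable def shifts {k : ℕ} (s : Fin (k + 1) → Fin (k + 1) → ℤ) (X : ℕ) : Finset (Fin (k + 1) → ℕ) :=
  (Fintype.piFinset (fun _ : Fin (k + 1) => range (X + 1))).filter (fun h => h 0 = 0 ∧ StrictMono h ∧
    ∀ i j, i < j → s i j ≠ 0 → ((h j : ℤ) - h i + s i j).toNat.Prime)

/-- for every `η > 0` there are arbitrarily large `x` with at least `x ^ (1 - η)` natural numbers `N ≤ x`,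
`N ≡ r (mod q)`, for which all the `N + h i` are prime (in particular there are infinitely many such `N`) -/
def Good {k : ℕ} (q r : ℕ) (h : Fin (k + 1) → ℕ) : Prop :=
  ∀ η : ℝ, 0 < η → ∃ᶠ x : ℝ in atTop,
    x ^ (1 - η) ≤ ({N : ℕ | (N ≡ r [MOD q] ∧ ∀ i, (N + h i).Prime) ∧ (N : ℝ) ≤ x}.ncard : ℝ)

open Classical in
/-- **The prime tuples conjecture for a positive proportion of the vectors of shifts whose differences are shifted
primes.** -/
theorem result (k : ℕ) (s : Fin (k + 1) → Fin (k + 1) → ℤ) (hs : ∀ i j, s i j = 0 ∨ s i j = 1 ∨ s i j = -1)
    (q : ℕ) (hq : 1 ≤ q) :
    ∃ c C : ℝ, 0 < c ∧ ∀ᶠ X : ℕ in atTop,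
      ((shifts s X).card : ℝ) ≤ C * ((X : ℝ) ^ k / Real.log X ^ edges s) ∧
      ∀ r : ℕ, r.Coprime q →
        c * ((X : ℝ) ^ k / Real.log X ^ edges s) ≤ (((shifts s X).filter (fun h => Good q r h)).card : ℝ) :=
  Pool.Agent.U288.SP.fin_main k s hs q hq

end Pool.Agent.Results.MP_8923e7_nt.ShiftedPrimeDifferences
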