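import Pool.Agent.U974.PP.Main

/-!
# Prime tuples with all matrices of Legendre symbols, for a positive proportion of all tuples

Let `m ≥ 0` and `L ≥ 1`. A vector `h_1 < … < h_m` is universal (`Universal`) if for EVERY matrix of signs
`ε_ij` and EVERY class `b` modulo `L` prime to `L` there are infinitely many `n` such that all the `n + h_i` are
primes `≡ b mod L` with the Legendre symbols `((n + h_j) / (n + h_i)) = ε_ij` for all `i < j`, and such that there
are at most `B` primes at distance at most `Y` from `n`; here `Y` is arbitrary (the `n` depend on it) and `B`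
depends on `m` and `L` only. So such a vector satisfies the prime tuples conjecture in all the
`2 ^ (m (m - 1) / 2) φ(L)` ways that are possible for the symbols and the class.

* Every set `V` of at least `δ x` integers in any interval `[y, y + x]`, `x ≥ x₀(δ)`, contains at least
  `c(δ) x ^ m` universal vectors.
* In the normalization `0 = a_0 < a_1 < … < a_k ≤ x` of the prime tuples conjecture at least `c x ^ k` of the
  vectors `(0, a_1, …, a_k)` are universal.

Proof. The symbol `((n + h_j) / (n + h_i))` is that of the difference `h_j - h_i`. For almost all large tuples `T`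
of positions (in one class modulo `Λ`) every difference has a prime factor to an odd power which divides no
other difference (`U974/PP/Count.lean`); then one can prescribe the symbols of all pairs of positions by a residue
class of `n` (`PP/Sym.lean`). If all `m`-subsets of `T` are bad, each for its own matrix and class, one passes by
Ramsey's theorem to a large subset of `T` on which the bad matrix and class are constant, prescribes there the
symbols of a Paley graph between the blocks of positions, and applies the theorem of Maynard and Tao in the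
form that a positive proportion of the blocks contains primes (`U974/TR/Meas.lean`); such a proportion of the
points of a Paley graph contains all matrices (`U974/LG/Embed.lean`), a contradiction (`PP/Ram.lean`). The
proportion is obtained by double counting (`PP/Main.lean`).
-/

set_option autoImplicit false

namespace Pool.Agent.Results.MP_8923e7_nt.SymbolMatrices

/-- every matrix of signs and every class prime to `L` are realised by infinitely many translates of `h` which
consist of primes and are isolated up to a bounded number of primes -/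
def Universal (L B : ℕ) {m : ℕ} (h : Fin m → ℕ) : Prop :=
  ∀ ε : Fin m → Fin m → ℤ, (∀ i j, ε i j = 1 ∨ ε i j = -1) → ∀ b : ℕ, b.Coprime L → ∀ Y : ℕ,
    {n : ℕ | (∀ i, (n + h i).Prime ∧ n + h i ≡ b [MOD L]) ∧
      (∀ i j, i < j → jacobiSym ((n + h j : ℕ) : ℤ) (n + h i) = ε i j) ∧
      {p : ℕ | p.Prime ∧ |(p : ℤ) - n| ≤ Y}.ncard ≤ B}.Infinite

section proof

open Finset

theorem ball_finite (n : ℤ) (Y : ℕ) : {p : ℕ | p.Prime ∧ |(p : ℤ) - n| ≤ Y}.Finite := by
  refine (Set.finite_Iic (n.toNat + Y)).subset ?_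
  rintro p ⟨-, hp⟩
  have h1 := (abs_le.1 hp).2
  show p ≤ n.toNat + Y
  omega

/-- translation -/
theorem shift_up {L B m : ℕ} {h : Fin m → ℕ} (y : ℕ) (H : Universal L B h) :
    Universal L B (fun i => y + h i) := by
  intro ε hε b hb Y
  have h1 := (H ε hε b hb (Y + y)).sdiff (Set.finite_le_nat y)
  have h2 := h1.image (f := fun n => n - y) (by
    intro a ha c hc hac
    have ha' : ¬ a ≤ y := ha.2
    have hc' : ¬ c ≤ y := hc.2
    simp only at hac
    omega)
  refine h2.mono ?_
  rintro _ ⟨n, ⟨⟨g1, g2, g3⟩, g4⟩, rfl⟩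
  have g4' : ¬ n ≤ y := g4
  have e : ∀ z, n - y + (y + z) = n + z := fun z => by omega
  refine ⟨fun i => ?_, fun i j hij => ?_, ?_⟩
  · simp only [e]
    exact g1 i
  · simp only [e]
    exact g2 i j hij
  · refine le_trans (Set.ncard_le_ncard ?_ (ball_finite n (Y + y))) g3
    rintro p ⟨hp1, hp2⟩
    refine ⟨hp1, ?_⟩
    simp only at hp2
    rw [abs_le] at hp2 ⊢
    push_cast
    omega

/-- translation -/
theorem shift_down {L B m : ℕ} {h : Fin m → ℕ} (y : ℕ) (H : Universal L B (fun i => y + h i)) :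
    Universal L B h := by
  intro ε hε b hb Y
  have h1 := H ε hε b hb (Y + y)
  have h2 := h1.image (f := fun n => n + y) (fun a _ c _ hac => Nat.add_right_cancel hac)
  refine h2.mono ?_
  rintro _ ⟨n, ⟨g1, g2, g3⟩, rfl⟩
  have e : ∀ z, n + y + z = n + (y + z) := fun z => by omega
  refine ⟨fun i => ?_, fun i j hij => ?_, ?_⟩
  · simp only [e]
    exact g1 i
  · simp only [e]
    exact g2 i j hij
  · refine le_trans (Set.ncard_le_ncard ?_ (ball_finite n (Y + y))) g3
    rintro p ⟨hp1, hp2⟩
    refine ⟨hp1, ?_⟩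
    simp only at hp2
    rw [abs_le] at hp2 ⊢
    push_cast at hp2 ⊢
    omega

theorem part_sets (m L : ℕ) (hL : 0 < L) : ∃ B : ℕ, ∀ δ : ℝ, 0 < δ → ∃ c : ℝ, 0 < c ∧ ∃ x₀ : ℕ,
    ∀ x : ℕ, x₀ ≤ x → ∀ (y : ℕ) (V : Finset ℕ), (∀ v ∈ V, y ≤ v ∧ v ≤ y + x) → δ * x ≤ V.card →
      c * (x : ℝ) ^ m ≤ ({h : Fin m → ℕ | StrictMono h ∧ (∀ i, h i ∈ V) ∧ Universal L B h}.ncard : ℝ) := by
  classical
  obtain ⟨B, hB⟩ := Pool.Agent.U974.PP.main m L hL
  refine ⟨B, fun δ hδ => ?_⟩
  obtain ⟨c, hc, x₀, hx₀⟩ := hB δ hδ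
  refine ⟨c, hc, x₀, fun x hx y V hV hVc => ?_⟩
  obtain ⟨V', hV'⟩ : ∃ V', V' = V.image (fun v => v - y) := ⟨_, rfl⟩
  have hcard : V'.card = V.card := by
    rw [hV']
    apply card_image_of_injOn
    intro a ha b hb hab
    have h1 := (hV a ha).1
    have h2 := (hV b hb).1
    simp only at hab
    omega
  have h1 := hx₀ x hx V' (by
    intro v hv
    rw [hV'] at hv
    obtain ⟨w, hw, rfl⟩ := mem_image.1 hv
    have := hV w hw
    omega) (by rw [hcard]; exact hVc)
  refine h1.trans ?_
  have hfin : {h : Fin m → ℕ | StrictMono h ∧ (∀ i, h i ∈ V) ∧ Universal L B h}.Finite := by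
    refine (Fintype.piFinset (fun _ : Fin m => V)).finite_toSet.subset ?_
    rintro h ⟨-, h2, -⟩
    rw [mem_coe, Fintype.mem_piFinset]
    exact h2
  have h2 : {h : Fin m → ℕ | StrictMono h ∧ (∀ i, h i ∈ V') ∧ Pool.Agent.U974.PP.GoodT L B h}.ncard ≤
      {h : Fin m → ℕ | StrictMono h ∧ (∀ i, h i ∈ V) ∧ Universal L B h}.ncard := by
    refine Set.ncard_le_ncard_of_injOn (fun h i => y + h i) ?_ ?_ hfin
    · rintro h ⟨g1, g2, g3⟩
      refine ⟨fun i j hij => Nat.add_lt_add_left (g1 hij) y, fun i => ?_, shift_up y g3⟩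
      have g4 := g2 i
      rw [hV'] at g4
      obtain ⟨w, hw, hw2⟩ := mem_image.1 g4
      have := (hV w hw).1
      have e : y + h i = w := by
        omega
      show y + h i ∈ V
      rw [e]
      exact hw
    · intro h _ h' _ hhh
      funext i
      exact Nat.add_left_cancel (congrFun hhh i)
  exact_mod_cast h2

theorem cons_strictMono {k : ℕ} {a : Fin (k + 1) → ℕ} (ha : StrictMono a) :
    StrictMono (fun i : Fin k => a i.succ - a 0) ∧ ∀ i : Fin k, 0 < a i.succ - a 0 := by
  have h0 : ∀ i : Fin k, a 0 < a i.succ := fun i => ha (Fin.succ_pos i)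
  refine ⟨fun i j hij => ?_, fun i => ?_⟩
  · have h1 := ha (Fin.succ_lt_succ_iff.2 hij)
    have h2 := h0 i
    show a i.succ - a 0 < a j.succ - a 0
    omega
  · have := h0 i
    omega

end proof

/-- **All matrices of Legendre symbols for a positive proportion of all tuples.** -/
theorem result (L : ℕ) (hL : 0 < L) :
    (∀ m : ℕ, ∃ B : ℕ, ∀ δ : ℝ, 0 < δ → ∃ c : ℝ, 0 < c ∧ ∃ x₀ : ℕ, ∀ x : ℕ, x₀ ≤ x →
      ∀ (y : ℕ) (V : Finset ℕ), (∀ v ∈ V, y ≤ v ∧ v ≤ y + x) → δ * x ≤ V.card →
      c * (x : ℝ) ^ m ≤ ({h : Fin m → ℕ | StrictMono h ∧ (∀ i, h i ∈ V) ∧ Universal L B h}.ncard : ℝ)) ∧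
    ∀ k : ℕ, ∃ (B : ℕ) (c : ℝ), 0 < c ∧ ∃ x₀ : ℕ, ∀ x : ℕ, x₀ ≤ x →
      c * (x : ℝ) ^ k ≤ ({a : Fin k → ℕ | StrictMono a ∧ (∀ i, 0 < a i ∧ a i ≤ x) ∧
        Universal L B (Fin.cons 0 a : Fin (k + 1) → ℕ)}.ncard : ℝ) := by
  classical
  refine ⟨fun m => part_sets m L hL, fun k => ?_⟩
  obtain ⟨B, hB⟩ := part_sets (k + 1) L hL
  obtain ⟨c, hc, x₀, hx₀⟩ := hB 1 one_pos
  refine ⟨B, c / 2, by positivity, max x₀ 1, fun x hx => ?_⟩
  have hx1 : x₀ ≤ x := le_trans (le_max_left _ _) hx
  have hx2 : 1 ≤ x := le_trans (le_max_right _ _) hx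
  have h1 := hx₀ x hx1 0 (Finset.range (x + 1)) (fun v hv => by
    have := Finset.mem_range.1 hv
    omega) (by
    rw [Finset.card_range, one_mul]
    exact_mod_cast Nat.le_succ x)
  set S := {h : Fin (k + 1) → ℕ | StrictMono h ∧ (∀ i, h i ∈ Finset.range (x + 1)) ∧ Universal L B h} with hS
  set A := {a : Fin k → ℕ | StrictMono a ∧ (∀ i, 0 < a i ∧ a i ≤ x) ∧
        Universal L B (Fin.cons 0 a : Fin (k + 1) → ℕ)} with hA
  have hAfin : A.Finite := by
    refine (Fintype.piFinset (fun _ : Fin k => Finset.range (x + 1))).finite_toSet.subset ?_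
    rintro a ⟨-, h2, -⟩
    rw [Finset.mem_coe, Fintype.mem_piFinset]
    intro i
    exact Finset.mem_range.2 (Nat.lt_succ_of_le (h2 i).2)
  have h2 : S.ncard ≤ (A ×ˢ (Finset.range (x + 1) : Set ℕ)).ncard := by
    refine Set.ncard_le_ncard_of_injOn (fun h => ((fun i : Fin k => h i.succ - h 0), h 0)) ?_ ?_
      (hAfin.prod (Finset.finite_toSet _))
    · rintro h ⟨g1, g2, g3⟩
      obtain ⟨g4, g5⟩ := cons_strictMono g1
      refine ⟨⟨g4, fun i => ⟨g5 i, ?_⟩, ?_⟩, Finset.mem_coe.2 (g2 0)⟩
      · have := Finset.mem_range.1 (g2 i.succ)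
        show h i.succ - h 0 ≤ x
        omega
      · refine shift_down (h 0) ?_
        have e : (fun i => h 0 + (Fin.cons 0 (fun i : Fin k => h i.succ - h 0) : Fin (k + 1) → ℕ) i) = h := by
          funext i
          refine Fin.cases ?_ (fun j => ?_) i
          · simp
          · simp only [Fin.cons_succ]
            have := g1 (Fin.succ_pos j)
            omega
        rw [e]
        exact g3
    · intro h hh h' hh' hhh
      simp only [Prod.mk.injEq] at hhh
      obtain ⟨e1, e2⟩ := hhh
      funext i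
      refine Fin.cases e2 (fun j => ?_) i
      have e3 : h j.succ - h 0 = h' j.succ - h' 0 := congrFun e1 j
      have g1 := hh.1 (Fin.succ_pos j)
      have g2 := hh'.1 (Fin.succ_pos j)
      omega
  rw [Set.ncard_prod, Set.ncard_coe_finset, Finset.card_range] at h2
  have h3 : (S.ncard : ℝ) ≤ A.ncard * (x + 1) := by exact_mod_cast h2
  have hxr : (1 : ℝ) ≤ x := by exact_mod_cast hx2
  have h4 : c * (x : ℝ) ^ (k + 1) ≤ A.ncard * (2 * x) := by
    refine h1.trans (h3.trans ?_)
    apply mul_le_mul_of_nonneg_left _ (Nat.cast_nonneg _)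
    linarith
  have h5 : (c / 2 * (x : ℝ) ^ k) * (2 * x) ≤ A.ncard * (2 * x) := by
    refine le_trans (le_of_eq ?_) h4
    rw [pow_succ]
    ring
  exact le_of_mul_le_mul_right h5 (by linarith)

end Pool.Agent.Results.MP_8923e7_nt.SymbolMatrices
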